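import Pool.Agent.Helper78.WK3.StA

/-!
# Project WK3, module UI3: a `u`-invariant symbol is constant
-/

set_option autoImplicit false

namespace Pool.Agent.Helper7.WK3

open Pool.Agent.Helper78.WK3 Pool.Agent.Helper78.W3 Pool.Agent.Helper14.W3 Pool.Agent.Helper14.CV

variable {R : Type} [AddCommGroup R]

/-- upper unipotent matrices -/
private theorem up {χ : ℤ → ℤ → R} (hu : EqC (act 3 0 0 1 χ) χ) (b : ℤ)
    (h : EqC (act 1 (3 * b) 0 1 χ) χ) : EqC (act 1 b 0 1 χ) χ := by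
  have h1 : EqC (act 1 b 0 1 (act 3 0 0 1 χ)) (act 1 b 0 1 χ) := hu.act (by norm_num)
  have h2 : EqC (act 3 0 0 1 (act 1 (3 * b) 0 1 χ)) (act 3 0 0 1 χ) := h.act (by norm_num)
  have e : act 1 b 0 1 (act 3 0 0 1 χ) = act 3 0 0 1 (act 1 (3 * b) 0 1 χ) := by
    rw [act_act, act_act]
    congr 1 <;> ring
  exact h1.symm.trans ((EqC.of_eq fun p q _ => by rw [e]).trans (h2.trans hu))

private theorem upAll {χ : ℤ → ℤ → R} (hu : EqC (act 3 0 0 1 χ) χ) (r : ℕ) :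
    ∀ b : ℤ, (EqC (act 1 (3 ^ r * b) 0 1 χ) χ) → EqC (act 1 b 0 1 χ) χ := by
  induction r with
  | zero => intro b h; simpa using h
  | succ r ih =>
    intro b h
    refine up hu b (ih (3 * b) ?_)
    have e : (3 : ℤ) ^ r * (3 * b) = 3 ^ (r + 1) * b := by ring
    rw [e]
    exact h

/-- lower unipotent matrices -/
private theorem lo {χ : ℤ → ℤ → R} (hh : Homog χ) (hu : EqC (act 3 0 0 1 χ) χ) (c : ℤ)
    (h : EqC (act 1 0 (3 * c) 1 χ) χ) : EqC (act 1 0 c 1 χ) χ := by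
  have h1 : EqC (act 1 0 (3 * c) 1 (act 3 0 0 1 χ)) (act 1 0 (3 * c) 1 χ) := hu.act (by norm_num)
  have e : act 3 0 0 1 (act 1 0 c 1 χ) = act 1 0 (3 * c) 1 (act 3 0 0 1 χ) := by
    rw [act_act, act_act]
    congr 1 <;> ring
  have h2 : EqC (act 3 0 0 1 (act 1 0 c 1 χ)) (act 3 0 0 1 χ) := by
    rw [e]
    exact h1.trans (h.trans hu.symm)
  obtain ⟨k, hk⟩ := h2
  have hψ : Homog (act 1 0 c 1 χ) := hh.act (by norm_num)
  refine ⟨k, fun p q hpq => ?_⟩
  have hpq' : p ≠ 0 ∨ 3 * q ≠ 0 := by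
    rcases hpq with h | h
    · exact Or.inl h
    · exact Or.inr (mul_ne_zero (by norm_num) h)
  have h3 := hk p (3 * q) hpq'
  have h4 := hψ 3 p q (by norm_num) hpq
  have h5 := hh 3 p q (by norm_num) hpq
  have e1 : act 3 0 0 1 (act 1 0 c 1 χ) p (3 * q) = act 1 0 c 1 χ (3 * p) (3 * q) := by
    show act 1 0 c 1 χ (3 * p + 0 * (3 * q)) (0 * p + 1 * (3 * q)) = _
    congr 1 <;> ring
  have e2 : act 3 0 0 1 χ p (3 * q) = χ (3 * p) (3 * q) := by
    show χ (3 * p + 0 * (3 * q)) (0 * p + 1 * (3 * q)) = _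
    congr 1 <;> ring
  rw [e1, e2, h4, h5] at h3
  exact h3

private theorem loAll {χ : ℤ → ℤ → R} (hh : Homog χ) (hu : EqC (act 3 0 0 1 χ) χ) (s : ℕ) :
    ∀ c : ℤ, (EqC (act 1 0 (3 ^ s * c) 1 χ) χ) → EqC (act 1 0 c 1 χ) χ := by
  induction s with
  | zero => intro c h; simpa using h
  | succ s ih =>
    intro c h
    refine lo hh hu c (ih (3 * c) ?_)
    have e : (3 : ℤ) ^ s * (3 * c) = 3 ^ (s + 1) * c := by ring
    rw [e]
    exact h

/-- Euclid's algorithm -/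
private theorem euclid {χ : ℤ → ℤ → R} (hh : Homog χ)
    (hT : ∀ p q : ℤ, (p ≠ 0 ∨ q ≠ 0) → χ (p + q) q = χ p q)
    (hL : ∀ p q : ℤ, (p ≠ 0 ∨ q ≠ 0) → χ p (p + q) = χ p q) :
    ∀ (n : ℕ) (p q : ℤ), (p ≠ 0 ∨ q ≠ 0) → p.natAbs + q.natAbs ≤ n → χ p q = χ 1 0 := by
  have h01 : χ 0 1 = χ 1 0 := by
    have h1 := hT 0 1 (Or.inr one_ne_zero)
    have h2 := hL 1 0 (Or.inl one_ne_zero)
    norm_num at h1 h2
    rw [← h1, h2]
  intro n
  induction n with
  | zero =>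
    intro p q hpq h
    omega
  | succ n ih =>
    intro p q hpq h
    by_cases hq : q = 0
    · subst hq
      have hp : p ≠ 0 := by simpa using hpq
      have h1 := hh p 1 0 hp (Or.inl one_ne_zero)
      simpa using h1
    by_cases hp : p = 0
    · subst hp
      have h1 := hh q 0 1 hq (Or.inr one_ne_zero)
      rw [← h01]
      simpa using h1
    by_cases hsg : (0 < p ∧ 0 < q) ∨ (p < 0 ∧ q < 0)
    · by_cases hle : q.natAbs ≤ p.natAbs
      · have h1 := hT (p - q) q (Or.inr hq)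
        rw [sub_add_cancel] at h1
        rw [h1]
        exact ih _ _ (Or.inr hq) (by omega)
      · have h1 := hL p (q - p) (Or.inl hp)
        rw [add_sub_cancel] at h1
        rw [h1]
        exact ih _ _ (Or.inl hp) (by omega)
    · by_cases hle : q.natAbs ≤ p.natAbs
      · rw [← hT p q hpq]
        exact ih _ _ (Or.inr hq) (by omega)
      · rw [← hL p q hpq]
        exact ih _ _ (Or.inl hp) (by omega)

theorem hUI3 (_hFar : StFar) : UI3 := by
  intro R _ r s χ hS hu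
  obtain ⟨hh, hG⟩ := hS
  have h1 : EqC (act 1 1 0 1 χ) χ := by
    refine upAll hu r 1 ?_
    exact hG 1 (3 ^ r * 1) 0 1 (by ring) (Dvd.intro _ rfl) (dvd_zero _)
  have h2 : EqC (act 1 0 1 1 χ) χ := by
    refine loAll hh hu s 1 ?_
    exact hG 1 0 (3 ^ s * 1) 1 (by ring) (dvd_zero _) (Dvd.intro _ rfl)
  obtain ⟨k1, hk1⟩ := h1
  obtain ⟨k2, hk2⟩ := h2
  have a1 : ∀ p q : ℤ, act 1 1 0 1 χ p q = χ (p + q) q := by
    intro p q
    show χ (1 * p + 1 * q) (0 * p + 1 * q) = _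
    congr 1 <;> ring
  have a2 : ∀ p q : ℤ, act 1 0 1 1 χ p q = χ p (p + q) := by
    intro p q
    show χ (1 * p + 0 * q) (1 * p + 1 * q) = _
    congr 1 <;> ring
  have z1 : k1 = 0 := by
    have := hk1 1 0 (Or.inl one_ne_zero)
    rw [a1, add_zero] at this
    exact (left_eq_add.1 this)
  have z2 : k2 = 0 := by
    have := hk2 0 1 (Or.inr one_ne_zero)
    rw [a2, zero_add] at this
    exact (left_eq_add.1 this)
  subst z1 z2
  have hT : ∀ p q : ℤ, (p ≠ 0 ∨ q ≠ 0) → χ (p + q) q = χ p q := by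
    intro p q hpq
    rw [← a1, hk1 p q hpq, add_zero]
  have hL : ∀ p q : ℤ, (p ≠ 0 ∨ q ≠ 0) → χ p (p + q) = χ p q := by
    intro p q hpq
    rw [← a2, hk2 p q hpq, add_zero]
  refine ⟨χ 1 0, fun p q hpq => ?_⟩
  rw [euclid hh hT hL _ p q hpq le_rfl]
  simp

end Pool.Agent.Helper7.WK3
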